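import Pool.Agent.Helper58.T3.Main

set_option autoImplicit false

namespace Pool.Agent.Results.MP_386785_lc.ChordalTree3Spanner

open Pool.Agent.Helper58.T3

open Classical in
/-- Whether a graph, given by its adjacency matrix, is a connected chordal graph with a tree
3-spanner can be decided in polynomial time. So TREE 3-SPANNER is polynomial on chordal graphs. -/
theorem result : Nonempty (Turing.TM2ComputableInPolyTime adjBits (fun b : Bool => [b])
    (fun G : FinGraph => decide (Chordal G.2 ∧ G.2.Connected ∧ HasTree3Spanner G.2))) :=
  main

end Pool.Agent.Results.MP_386785_lc.ChordalTree3Spanner
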